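import Pool.Agent.Helper25.MU.TRF2

/-!
# MT, module TFG: the transfer to a subgroup of finite index at a Frobenius element
-/

set_option autoImplicit false
set_option maxHeartbeats 800000

open NumberField MU

namespace MT

/-- the transfer at a Frobenius element, for an arbitrary subgroup of finite index -/
theorem tfg (hFRE : ST_FRE) (F : Type) [Field F] [NumberField F] (H : Subgroup (GalQ F))
    [H.FiniteIndex] (p : ℕ) (hp : p.Prime) (𝔓 : Ideal (Zb F)) (h𝔓 : Over p 𝔓) (φ : GalQ F)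
    (hφ : CongPow 𝔓 p φ) :
    ∃ (r : ℕ) (x : Fin r → H) (k : Fin r → ℕ) (𝔔 : Fin r → Ideal (Zb F)),
      (∀ i, Over p (𝔔 i) ∧ 1 ≤ k i ∧ CongPow (𝔔 i) (p ^ k i) (x i : GalQ F)) ∧
      ∑ i, k i = H.index ∧
      (∀ 𝔓' : Ideal (Zb F), Over p 𝔓' → ∃ (i : Fin r) (g : H), ∀ x y : Zb F,
        (y : AlgebraicClosure F) = (g : GalQ F) (x : AlgebraicClosure F) →
          (x ∈ 𝔓' ↔ y ∈ 𝔔 i)) ∧
      ∀ (A : Type) [CommGroup A] (ε : H →* A), ε.transfer φ = ∏ i, ε (x i) := by
  classical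
  let Q := Quotient (MulAction.orbitRel (Subgroup.zpowers φ) (GalQ F ⧸ H))
  have hfinG : Finite (GalQ F ⧸ H) := Subgroup.finite_quotient_of_finiteIndex
  have hfinQ : Finite Q := Quotient.finite _
  let : Fintype Q := Fintype.ofFinite _
  -- the data indexed by the orbits
  let γ : Q → GalQ F := fun q => q.out.out
  let kk : Q → ℕ := fun q => Function.minimalPeriod (φ • ·) q.out
  let hh : Q → H := fun q => ⟨q.out.out⁻¹ * φ ^ Function.minimalPeriod (φ • ·) q.out * q.out.out,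
            QuotientGroup.out_conj_pow_minimalPeriod_mem H φ q.out⟩
  let 𝔮 : Q → Ideal (Zb F) := fun q => 𝔓.comap (trf_hom (γ q))
  let E : Fin (Fintype.card Q) ≃ Q := (Fintype.equivFin Q).symm
  refine ⟨Fintype.card Q, fun i => hh (E i), fun i => kk (E i), fun i => 𝔮 (E i), ?_, ?_, ?_, ?_⟩
  · intro i
    set q := E i with hq
    refine ⟨⟨?_, ?_⟩, ?_, ?_⟩
    · have h0 : Ideal.IsPrime (𝔓 : Ideal (Zb F)) := h𝔓.1
      exact Ideal.IsPrime.comap (trf_hom (γ q))
    · change trf_hom (γ q) (p : Zb F) ∈ 𝔓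
      rw [map_natCast]
      exact h𝔓.2
    · have h1 : NeZero (Function.minimalPeriod (φ • ·) q.out) := inferInstance
      exact Nat.one_le_iff_ne_zero.2 h1.out
    · suffices hs : ∀ x y : Zb F, (y : AlgebraicClosure F) =
          (hh q : GalQ F) (x : AlgebraicClosure F) →
          trf_hom (γ q) (y - x ^ p ^ kk q) ∈ 𝔓 from fun x y hxy => hs x y hxy
      intro x y hxy
      have h1 : y = trf_hom ((γ q)⁻¹ * φ ^ kk q * γ q) x := by
        apply Subtype.ext
        rw [trf_hom_coe, hxy]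
      have h3 : trf_hom (γ q) y = trf_hom (φ ^ kk q) (trf_hom (γ q) x) := by
        rw [h1, ← trf_hom_mul, ← trf_hom_mul]
        congr 1
        group
      rw [map_sub, map_pow, h3]
      exact trf_cong_pow hφ (kk q) (trf_hom (γ q) x)
  · have h1 : H.index = ∑ q : Q, kk q := Subgroup.index_eq_sum_minimalPeriod H φ
    rw [h1]
    exact E.sum_comp kk
  · intro 𝔓' h𝔓'
    obtain ⟨g, hg⟩ := (hFRE F p hp).2 𝔓' 𝔓 h𝔓' h𝔓
    let q : Q := Quotient.mk _ (QuotientGroup.mk g : GalQ F ⧸ H)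
    have hq : MulAction.orbitRel (Subgroup.zpowers φ) (GalQ F ⧸ H) q.out
        (QuotientGroup.mk g : GalQ F ⧸ H) := Quotient.exact (Quotient.out_eq q)
    rw [MulAction.orbitRel_apply, MulAction.mem_orbit_symm] at hq
    obtain ⟨⟨s, hs⟩, hs'⟩ := hq
    obtain ⟨j, rfl⟩ := Subgroup.mem_zpowers_iff.1 hs
    have h1 : (QuotientGroup.mk (φ ^ j * γ q) : GalQ F ⧸ H) = QuotientGroup.mk g := by
      rw [← hs']
      have h2 : (q.out : GalQ F ⧸ H) = QuotientGroup.mk (γ q) := (QuotientGroup.out_eq' _).symm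
      conv_rhs => rw [h2]
      rfl
    rw [QuotientGroup.eq] at h1
    let u : H := ⟨(φ ^ j * γ q)⁻¹ * g, h1⟩
    refine ⟨E.symm q, u, fun x y hxy => ?_⟩
    have h3 : y = trf_hom (u : GalQ F) x := by
      apply Subtype.ext
      rw [trf_hom_coe, hxy]
    rw [hg x (trf_hom g x) (trf_hom_coe g x)]
    have h4 : trf_hom g x = trf_hom (φ ^ j) (trf_hom (γ q) y) := by
      rw [h3, ← trf_hom_mul, ← trf_hom_mul]
      congr 1
      simp only [u]
      group
    rw [h4, trf_stab_zpow hp h𝔓 hφ]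
    change _ ↔ y ∈ 𝔮 (E (E.symm q))
    rw [Equiv.apply_symm_apply]
    exact Iff.rfl
  · intro A _ ε
    rw [MonoidHom.transfer_eq_prod_quotient_orbitRel_zpowers_quot]
    exact (E.prod_comp (fun q => ε (hh q))).symm

end MT
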